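import Pool.Agent.W5h93.EU.Bnd

/-!
# From the varieties of a class to all schemes, by birational models
-/

set_option autoImplicit false

open CategoryTheory AlgebraicGeometry Pool.Agent.Y116.UV Pool.Agent.Z125.UN Topology
  TopologicalSpace Pool.Agent.H914

namespace Pool.Agent.W5h93.EU

section top

lemma dim_closed_lt {Z X : Type} [TopologicalSpace Z] [TopologicalSpace X] [IrreducibleSpace X]
    [Nonempty Z] {f : Z → X} (hf : IsClosedEmbedding f) (hne : Set.range f ≠ Set.univ) :
    topologicalKrullDim Z + 1 ≤ topologicalKrullDim X := by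
  have hn : Nonempty (IrreducibleCloseds Z) :=
    ⟨⟨closure {Classical.arbitrary Z}, isIrreducible_singleton.closure, isClosed_closure⟩⟩
  let T : IrreducibleCloseds X := ⟨Set.univ, IrreducibleSpace.isIrreducible_univ X, isClosed_univ⟩
  let m : IrreducibleCloseds Z → IrreducibleCloseds X := IrreducibleCloseds.map f hf.continuous
  have hm : StrictMono m := IrreducibleCloseds.map_strictMono_of_isInducing hf.isInducing
  have hlt : ∀ s, m s < T := by
    intro s
    have h1 : ((m s : IrreducibleCloseds X) : Set X) ⊆ Set.range f := by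
      rw [IrreducibleCloseds.coe_map]
      exact (hf.isClosed_range.closure_subset_iff).mpr (Set.image_subset_range f s)
    refine lt_of_le_of_ne (fun x _ => trivial) fun h => hne ?_
    have h2 : (Set.univ : Set X) ⊆ Set.range f := by
      have h3 : ((m s : IrreducibleCloseds X) : Set X) = Set.univ := by rw [h]; rfl
      rw [← h3]
      exact h1
    exact Set.univ_subset_iff.mp h2
  let g : WithTop (IrreducibleCloseds Z) → IrreducibleCloseds X := fun o => WithTop.recTopCoe T m o
  have hg : StrictMono g := by
    intro a b hab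
    induction b using WithTop.recTopCoe with
    | top =>
      induction a using WithTop.recTopCoe with
      | top => exact absurd hab (lt_irrefl _)
      | coe a => exact hlt a
    | coe b =>
      induction a using WithTop.recTopCoe with
      | top => exact absurd hab (by simp)
      | coe a => exact hm (WithTop.coe_lt_coe.mp hab)
  have h1 := Order.krullDim_le_of_strictMono g hg
  rw [Order.krullDim_WithTop] at h1
  exact h1

end top

section

variable {k : Type} [Field k] {P : Sch k → Prop} (hP : Bnd True P)

include hP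

lemma p_of_empty (Z : Sch k) (hZ : FT True Z) (he : IsEmpty Z.left) : P Z := by
  have h1 : IsAffine Z.left := inferInstance
  obtain ⟨A, _, _, _, ⟨e⟩⟩ := exists_aff Z hZ.locallyOfFiniteType
  refine hP.iso (ft_aff True) ⟨e⟩ (p_empty hP A ?_)
  let e' := (Over.forget _).mapIso e
  have h2 : IsEmpty (PrimeSpectrum A) :=
    ⟨fun x => he.false ((Scheme.homeoOfIso e').toEquiv x)⟩
  by_contra h3
  rw [not_subsingleton_iff_nontrivial] at h3
  exact h2.false (Classical.arbitrary _)

omit hP in
lemma ft_sch (X : SmVar k) : FT True (sch X) where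
  locallyOfFiniteType := by
    change LocallyOfFiniteType X.str
    infer_instance
  quasiCompact := by
    change QuasiCompact X.str
    infer_instance
  separated _ := by
    change IsSeparated X.str
    infer_instance

/-- An open subscheme of the spectrum of a domain which has a model. -/
lemma model_step {𝒱 : VarClass k} {m : ℕ} (hM : HasModels 𝒱 m)
    (hX : ∀ X : 𝒱.Obj, DimLE X.V m → P (sch X.V))
    (ih : ∀ Z : Sch k, FT True Z → topologicalKrullDim Z.left + 1 ≤ m → P Z)
    (B : Type) [CommRing B] [IsDomain B] [Algebra k B] [Algebra.FiniteType k B]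
    (hB : ringKrullDim B ≤ m) : ∃ w : B, w ≠ 0 ∧ P (aff k (Localization.Away w)) := by
  obtain ⟨d, hd⟩ : ∃ d : ℕ, ringKrullDim B = d := by
    have h0 : 0 ≤ ringKrullDim B := ringKrullDim_nonneg_of_nontrivial
    generalize ringKrullDim B = x at h0 hB
    induction x using WithBot.recBotCoe with
    | bot => exact absurd h0 (by decide)
    | coe e =>
      have h1 : e ≤ (m : ℕ∞) := by exact_mod_cast hB
      obtain ⟨d, hd⟩ := ENat.ne_top_iff_exists.mp (ne_top_of_le_ne_top (ENat.natCast_ne_top m) h1)
      exact ⟨d, by rw [← hd]; rfl⟩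
  have hdm : d ≤ m := by
    rw [hd] at hB
    exact_mod_cast hB
  obtain ⟨X, ⟨V, i, j, ⟨v⟩, hi, hj⟩, hdim', hdim⟩ := hM B d hdm hd
  -- a basic open subset of the image of `V`
  let x : PrimeSpectrum B := i.left v
  have hO : IsOpen (Set.range i.left) := i.left.isOpenEmbedding.isOpen_range
  obtain ⟨_, ⟨w, rfl⟩, hxw, hw⟩ :=
    (PrimeSpectrum.isTopologicalBasis_basic_opens (R := B)).exists_subset_of_mem_open
      (show x ∈ (Set.range i.left : Set (PrimeSpectrum B)) from ⟨v, rfl⟩) hO
  have hw0 : w ≠ 0 := by
    rintro rfl
    exact hxw (Ideal.zero_mem _)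
  refine ⟨w, hw0, ?_⟩
  have hft : Algebra.FiniteType k (Localization.Away w) :=
    Algebra.FiniteType.trans (S := B) inferInstance inferInstance
  let l : aff k (Localization.Away w) ⟶ aff k B :=
    affMap (IsScalarTower.toAlgHom k B (Localization.Away w))
  have hl : IsOpenImmersion l.left :=
    Scheme.isOpenImmersion_SpecMap_localizationAway (R := .of B) w
  have hlr : Set.range l.left = (PrimeSpectrum.basicOpen w : Set (PrimeSpectrum B)) :=
    PrimeSpectrum.localization_away_comap_range _ w
  have hsub : Set.range l.left ⊆ Set.range i.left := by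
    rw [hlr]
    exact hw
  let g0 : (aff k (Localization.Away w)).left ⟶ V.left := IsOpenImmersion.lift i.left l.left hsub
  have hg0 : g0 ≫ i.left = l.left := IsOpenImmersion.lift_fac _ _ _
  have hg0o : IsOpenImmersion g0 := by
    have : IsOpenImmersion (g0 ≫ i.left) := by rw [hg0]; exact hl
    exact IsOpenImmersion.of_comp g0 i.left
  let g : aff k (Localization.Away w) ⟶ sch X.V := Over.homMk (g0 ≫ j.left) (by
    rw [Category.assoc, Over.w j, ← Over.w i, ← Category.assoc, hg0, Over.w l])
  have hg : IsOpenImmersion g.left := by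
    change IsOpenImmersion (g0 ≫ j.left)
    infer_instance
  let O : (sch X.V).left.Opens := ⟨Set.range g.left, g.left.isOpenEmbedding.isOpen_range⟩
  have ht : IsTriple (cloMap (sch X.V) O) g := ⟨inferInstance, hg, range_cloMap _ _⟩
  have hXm : topologicalKrullDim X.V.X ≤ m := by
    rw [hdim]
    exact_mod_cast hdm
  have hPX := hX X ⟨hdim'.trans_le hdm, hXm⟩
  refine hP.opened _ _ (ft_sch X.V) ht ?_ hPX
  by_cases hne : IsEmpty (clo (sch X.V) O).left
  · exact p_of_empty hP _ (ft_clo (ft_sch X.V)) hne
  · rw [not_isEmpty_iff] at hne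
    refine ih _ (ft_clo (ft_sch X.V)) ?_
    refine le_trans ?_ hXm
    have : IrreducibleSpace (sch X.V).left := inferInstanceAs (IrreducibleSpace X.V.X)
    refine dim_closed_lt (X := (sch X.V).left) (f := (cloMap (sch X.V) O).left)
      (cloMap (sch X.V) O).left.isClosedEmbedding fun h => ?_
    rw [range_cloMap] at h
    have hxl : x ∈ Set.range l.left := by
      rw [hlr]
      exact hxw
    obtain ⟨y, -⟩ := hxl
    have h1 : g.left y ∈ (O : Set (sch X.V).left)ᶜ := by
      rw [h]
      trivial
    exact h1 ⟨y, rfl⟩

/-- **From the varieties with models to all schemes.** -/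
theorem devissage [PerfectField k] {𝒱 : VarClass k} {n : ℕ} (hM : HasModels 𝒱 n)
    (hX : ∀ X : 𝒱.Obj, DimLE X.V n → P (sch X.V)) (U : Sch k) (hU : FT True U)
    (hdim : topologicalKrullDim U.left ≤ n) : P U := by
  have step : ∀ m : ℕ, m ≤ n → (∀ Z : Sch k, FT True Z → topologicalKrullDim Z.left + 1 ≤ m → P Z) →
      ∀ U : Sch k, FT True U → topologicalKrullDim U.left ≤ m → P U := by
    intro m hm ih
    have hmn : (m : WithBot ℕ∞) ≤ n := by exact_mod_cast hm
    refine of_affine_dim hP fun A _ _ _ hA => ?_
    refine noeth hP (fun B _ _ hB => p_empty hP B hB) fun p hp => ?_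
    have : Algebra.FiniteType k (A ⧸ p) :=
      Algebra.FiniteType.of_surjective (Ideal.Quotient.mkₐ k _) (Ideal.Quotient.mkₐ_surjective k _)
    refine model_step hP (𝒱 := 𝒱) (m := m) (fun B _ _ _ _ d hd hB => hM B d (hd.trans hm) hB)
      (fun X hX' => hX X ⟨hX'.1.trans hm, hX'.2.trans hmn⟩) ih (A ⧸ p) ?_
    exact (ringKrullDim_quotient_le p).trans hA
  have key : ∀ m : ℕ, m ≤ n → ∀ U : Sch k, FT True U → topologicalKrullDim U.left ≤ m → P U := by
    intro m
    induction m with
    | zero =>
      intro hm
      refine step 0 hm fun Z hZ hd => ?_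
      by_cases he : IsEmpty Z.left
      · exact p_of_empty hP Z hZ he
      · rw [not_isEmpty_iff] at he
        exfalso
        have hn : Nonempty (IrreducibleCloseds Z.left) :=
          ⟨⟨closure {Classical.arbitrary Z.left}, isIrreducible_singleton.closure,
            isClosed_closure⟩⟩
        have h0 : (0 : WithBot ℕ∞) ≤ topologicalKrullDim Z.left := Order.krullDim_nonneg
        have h1 : (0 : WithBot ℕ∞) + 1 ≤ 0 := (add_le_add_left h0 1).trans (by exact_mod_cast hd)
        rw [zero_add] at h1
        exact absurd h1 (by decide)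
    | succ m ih =>
      intro hm
      refine step (m + 1) hm fun Z hZ hd => ih (by omega) Z hZ ?_
      generalize topologicalKrullDim Z.left = x at hd
      induction x using WithBot.recBotCoe with
      | bot => exact bot_le
      | coe e =>
        have h1 : e + 1 ≤ ((m + 1 : ℕ) : ℕ∞) := by exact_mod_cast hd
        have h2 : e ≤ (m : ℕ∞) := by
          rw [Nat.cast_add, Nat.cast_one] at h1
          exact (ENat.add_le_add_iff_right ENat.one_ne_top).mp h1
        exact_mod_cast h2
  exact key n le_rfl U hU hdim

end

end Pool.Agent.W5h93.EU
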