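import Pool.Agent.W5h93.EU.ADefs
import Pool.Agent.W5h93.EU.Dev
import Pool.Agent.H914R2.GBasic

/-!
# The conjecture A and the numbers of algebraic classes
-/

set_option autoImplicit false

open CategoryTheory AlgebraicGeometry Pool.Agent.Y116.UV

universe v

namespace Pool.Agent.W5h93.EU

open Pool.Agent.H914 Pool.Agent.H914.VarClass Pool.Agent.H914.VarClass.Obj
  Pool.Agent.H914.WeilCohomology

variable {k : Type} [Field k] {𝒱 : VarClass k} {ops : CycleOps 𝒱}
  {W : WeilCohomology.{0, v} ops} {X : 𝒱.Obj}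

lemma mem_algClasses {p : ℕ} {x : W.H X} :
    x ∈ algClasses W (ratField W.K) X p ↔ ∃ z, X.IsCyc p z ∧ W.cl X z = x := by
  constructor
  · intro hx
    induction hx using Submodule.span_induction with
    | mem x hx => exact hx
    | zero => exact ⟨0, SmVar.IsCyc.zero _ _, map_zero _⟩
    | add x y _ _ hx hy =>
      obtain ⟨z, hz, rfl⟩ := hx
      obtain ⟨w, hw, rfl⟩ := hy
      exact ⟨z + w, SmVar.IsCyc.add hz hw, map_add _ _ _⟩
    | smul c x _ hx =>
      obtain ⟨z, hz, rfl⟩ := hx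
      have hbot : ∀ a : W.K, a ∈ ratField W.K → ∃ q : ℚ, (q : W.K) = a := by
        intro a ha
        rw [ratField, Subfield.bot_eq_of_charZero] at ha
        obtain ⟨q, hq⟩ := ha
        exact ⟨q, by rw [← hq]; exact (eq_ratCast (algebraMap ℚ W.K) q).symm⟩
      obtain ⟨q, hq⟩ := hbot c c.2
      refine ⟨q • z, SmVar.IsCyc.smul q hz, ?_⟩
      rw [W.cl_smul, hq]
      rfl
  · rintro ⟨z, hz, rfl⟩
    exact Submodule.subset_span ⟨z, hz, rfl⟩

/-- multiplication by `D ^ i` -/
noncomputable def mulD (W : WeilCohomology.{0, v} ops) (X : 𝒱.Obj) (D : X.Cycles) (i : ℕ) :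
    W.H X →ₗ[ratField W.K] W.H X :=
  (LinearMap.mulLeft W.K (W.cl X D) ^ i).restrictScalars _

/-- multiplication by `D ^ i` on algebraic classes -/
noncomputable def mulA {D : X.Cycles} (hD : X.IsCyc 1 D) {p q i : ℕ} (h : p + i = q) :
    algClasses W (ratField W.K) X p →ₗ[ratField W.K] algClasses W (ratField W.K) X q :=
  (mulD W X D i).restrict (fun x hx => by
    obtain ⟨z, hz, rfl⟩ := mem_algClasses.mp hx
    refine mem_algClasses.mpr ⟨divPow ops D i z, ?_, cl_divPow D i z⟩
    rw [← h]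
    exact divPow_mem hD i hz)

lemma mulA_injective {D : X.Cycles} (hD : X.IsCyc 1 D) (hL : HardLefschetz W X D) {q : ℕ}
    (hq : 2 * q ≤ X.dim) (h : q + (X.dim - 2 * q) = X.dim - q) :
    Function.Injective (mulA (W := W) hD h) := by
  rw [← LinearMap.ker_eq_bot, LinearMap.ker_eq_bot']
  rintro ⟨x, hx⟩ h0
  obtain ⟨z, hz, rfl⟩ := mem_algClasses.mp hx
  have h1 := congrArg Subtype.val h0
  have h2 := (hL (2 * q) hq).1 (W.cl X z) (W.cl_mem hz) h1
  exact Subtype.ext h2

/-- The conjecture A in one codimension is an equality of ranks. -/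
lemma a_rank (hf : FiniteRanks W) {D : X.Cycles} (hD : X.IsCyc 1 D) (hL : HardLefschetz W X D)
    {q : ℕ} (hq : 2 * q ≤ X.dim) :
    (∀ z, X.IsCyc (X.dim - q) z →
      ∃ z', X.IsCyc q z' ∧ W.cl X (divPow ops D (X.dim - 2 * q) z') = W.cl X z) ↔
    algRank W X (X.dim - q) = algRank W X q := by
  have h : q + (X.dim - 2 * q) = X.dim - q := by omega
  have hinj := mulA_injective (W := W) hD hL hq h
  have : Module.Finite _ _ := hf X q
  have : Module.Finite _ _ := hf X (X.dim - q)
  constructor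
  · intro hA
    have hs : Function.Surjective (mulA (W := W) hD h) := by
      rintro ⟨x, hx⟩
      obtain ⟨z, hz, rfl⟩ := mem_algClasses.mp hx
      obtain ⟨z', hz', h1⟩ := hA z hz
      refine ⟨⟨W.cl X z', mem_algClasses.mpr ⟨z', hz', rfl⟩⟩, Subtype.ext ?_⟩
      rw [cl_divPow] at h1
      exact h1
    exact (LinearEquiv.finrank_eq (LinearEquiv.ofBijective _ ⟨hinj, hs⟩)).symm
  · intro hr z hz
    have hs : Function.Surjective (mulA (W := W) hD h) :=
      (LinearMap.injective_iff_surjective_of_finrank_eq_finrank hr.symm).mp hinj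
    obtain ⟨⟨x, hx⟩, h1⟩ := hs ⟨W.cl X z, mem_algClasses.mpr ⟨z, hz, rfl⟩⟩
    obtain ⟨z', hz', rfl⟩ := mem_algClasses.mp hx
    refine ⟨z', hz', ?_⟩
    rw [cl_divPow]
    exact congrArg Subtype.val h1

lemma lefschetzA_rank (hf : FiniteRanks W) {D : X.Cycles} (hD : X.IsCyc 1 D)
    (hL : HardLefschetz W X D) :
    LefschetzA W X D ↔ ∀ q, 2 * q ≤ X.dim → algRank W X (X.dim - q) = algRank W X q :=
  forall_congr' fun _ => forall_congr' fun hq => a_rank hf hD hL hq

/-- The conjecture A is the vanishing of the invariant. -/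
theorem lefschetzA_defect {δ : Sch k → ℤ → ℤ} (hδ : IsDefect W δ) (hf : FiniteRanks W)
    {D : X.Cycles} (hD : X.IsCyc 1 D) (hL : HardLefschetz W X D) :
    LefschetzA W X D ↔ ∀ c, δ (sch X.V) c = 0 := by
  rw [lefschetzA_rank hf hD hL]
  constructor
  · intro h c
    by_cases hc : c < 0 ∨ (X.dim : ℤ) < c
    · exact hδ.outside X c hc
    · obtain ⟨q, rfl⟩ : ∃ q : ℕ, (q : ℤ) = c := ⟨c.toNat, Int.toNat_of_nonneg (by omega)⟩
      have hq : q ≤ X.dim := by omega
      rw [hδ.inside X q hq]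
      by_cases h2 : 2 * q ≤ X.dim
      · rw [h q h2, sub_self]
      · have h3 := h (X.dim - q) (by omega)
        rw [show X.dim - (X.dim - q) = q by omega] at h3
        rw [h3, sub_self]
  · intro h q hq
    have h1 := h q
    rw [hδ.inside X q (by omega), sub_eq_zero] at h1
    exact_mod_cast h1

lemma tr_inj {x : W.H X} (hx : x ∈ W.gr X (2 * X.dim)) (h : W.tr X x = 0) : x = 0 := by
  apply W.nondeg
  have h1 : W.tr X ∘ₗ LinearMap.mulLeft W.K x = 0 := by
    apply gr_ext (W.isInternal X)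
    intro i a ha
    rw [LinearMap.comp_apply, LinearMap.mulLeft_apply, LinearMap.zero_apply]
    by_cases hi : i = 0
    · subst hi
      rw [W.gr_zero, Submodule.mem_span_singleton] at ha
      obtain ⟨c, rfl⟩ := ha
      rw [mul_smul_comm, mul_one, map_smul, h, smul_zero]
    · exact W.tr_eq_zero (W.mul_mem hx ha) (by omega)
  exact fun b => DFunLike.congr_fun h1 b

/-- The conjecture A in codimension zero. -/
lemma a_zero {D : X.Cycles} (hD : X.IsCyc 1 D) (hL : HardLefschetz W X D) (z : X.Cycles)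
    (hz : X.IsCyc (X.dim - 0) z) :
    ∃ z', X.IsCyc 0 z' ∧ W.cl X (divPow ops D (X.dim - 2 * 0) z') = W.cl X z := by
  rw [Nat.sub_zero] at hz
  simp only [mul_zero, Nat.sub_zero]
  have hmem : X.IsCyc X.dim (divPow ops D X.dim X.V.fundCycle) := by
    have := divPow_mem (ops := ops) hD X.dim X.V.fundCycle_mem
    rwa [zero_add] at this
  by_cases hy : W.cl X (divPow ops D X.dim X.V.fundCycle) = 0
  · refine ⟨0, SmVar.IsCyc.zero _ _, ?_⟩
    rw [cl_divPow, W.cl_fund] at hy
    have h1 := (hL 0 (Nat.zero_le _)).1 1 (W.one_mem X) hy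
    have h2 : ∀ a : W.H X, a = 0 := fun a => by rw [← one_mul a, h1, zero_mul]
    exact (h2 _).trans (h2 _).symm
  · have ht : W.tr X (W.cl X (divPow ops D X.dim X.V.fundCycle)) ≠ 0 :=
      fun h => hy (tr_inj (W.cl_mem hmem) h)
    rw [W.tr_cl hmem] at ht
    set d : ℚ := X.V.degCycle (divPow ops D X.dim X.V.fundCycle) with hd
    refine ⟨(X.V.degCycle z / d) • X.V.fundCycle, SmVar.IsCyc.smul _ X.V.fundCycle_mem, ?_⟩
    rw [← sub_eq_zero]
    apply tr_inj (X := X)
    · refine Submodule.sub_mem _ (W.cl_mem ?_) (W.cl_mem hz)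
      have := divPow_mem (ops := ops) hD X.dim
        (SmVar.IsCyc.smul (X.V.degCycle z / d) X.V.fundCycle_mem)
      rwa [zero_add] at this
    · rw [map_sub, W.tr_cl hz, cl_divPow, W.cl_smul, map_smul, ← cl_divPow, map_smul,
        W.tr_cl hmem, ← hd, smul_eq_mul, sub_eq_zero]
      have hd0 : (d : W.K) ≠ 0 := ht
      push_cast
      field_simp

end Pool.Agent.W5h93.EU
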