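import Pool.Agent.W5h93.EU.AConj

/-!
# Additive invariants and trilinear forms
-/

set_option autoImplicit false

open CategoryTheory AlgebraicGeometry Pool.Agent.Y116.UV Pool.Agent.Z125.UN

universe v

namespace Pool.Agent.W5h93.EU

open Pool.Agent.H914 Pool.Agent.H914.VarClass Pool.Agent.H914.VarClass.Obj
  Pool.Agent.H914.WeilCohomology

variable {k : Type} [Field k] [PerfectField k] {𝒱 : VarClass k} {ops : CycleOps 𝒱}

/-- The invariant vanishes for the varieties of dimension at most `n` if and only if it vanishes for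
the hypersurfaces `T(x, y, z) = 1` with a block of at most `n + 2` variables. -/
theorem euler_iff {δ : Sch k → ℤ → ℤ} (hδ : IsEuler δ) {n : ℕ} (hM : HasModels 𝒱 n) :
    (∀ X : 𝒱.Obj, DimLE X.V n → ∀ c, δ (sch X.V) c = 0) ↔
      ∀ (a b d : ℕ) (T : Fin a → Fin b → Fin d → k), (a ≤ n + 2 ∨ b ≤ n + 2 ∨ d ≤ n + 2) →
        ∀ c, δ (hypS T) c = 0 := by
  have hB := bnd_euler hδ
  constructor
  · intro h a b d T hm
    have h1 : ∀ U : Sch k, FT True U → topologicalKrullDim U.left ≤ n → ∀ c, δ U c = 0 :=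
      devissage hB hM h
    have h2 : ∀ I : Ideal (MvPolynomial (Fin (n + 1)) k),
        ∀ c, δ (aff k (MvPolynomial (Fin (n + 1)) k ⧸ I)) c = 0 :=
      dim_to_closed hB fun A _ _ _ hA => h1 _ (ft_aff True) (by rw [topDim_aff]; exact hA)
    exact of_block hB (fun a b c' hc' T => to_tri hB h2 a b c' hc' T) T hm
  · intro h X hX
    exact (dim_tri hB n).mpr (fun a b T => h a b (n + 2) T (Or.inr (Or.inr le_rfl))) (sch X.V)
      (ft_sch X.V) hX.2

variable {W : WeilCohomology.{0, v} ops}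

/-- the conjecture A in dimension at most `n` -/
theorem a_iff {δ : Sch k → ℤ → ℤ} (hδ : IsDefect W δ) (hf : FiniteRanks W) (hL : HasLefschetz W)
    {n : ℕ} (hM : HasModels 𝒱 n) :
    (∀ X : 𝒱.Obj, DimLE X.V n → ∀ D : X.Cycles, X.IsCyc 1 D →
      HardLefschetz W X D → LefschetzA W X D) ↔
      ∀ (a b d : ℕ) (T : Fin a → Fin b → Fin d → k), (a ≤ n + 2 ∨ b ≤ n + 2 ∨ d ≤ n + 2) →
        ∀ c, δ (hypS T) c = 0 := by
  rw [← euler_iff hδ.toIsEuler hM]
  refine forall_congr' fun X => forall_congr' fun hX => ?_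
  constructor
  · intro h
    obtain ⟨D, hD, hLD⟩ := hL X
    exact (lefschetzA_defect hδ hf hD hLD).mp (h D hD hLD)
  · intro h D hD hLD
    exact (lefschetzA_defect hδ hf hD hLD).mpr h

end Pool.Agent.W5h93.EU
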